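import Pool.Agent.helper99.WN.SpecA

set_option autoImplicit false

open Classical

namespace Pool.Agent.WN

theorem KE_inv {V : Type} {k : ℕ} {R : V → Lt k → V → Prop} (hS : Sym R) (l : List (Lt k)) :
    ∀ {v v' : V}, Rd R v l v' → Rd R v' (FreeGroup.invRev l) v := by
  induction l with
  | nil =>
    intro v v' h
    have h1 : v = v' := h
    exact h1.symm
  | cons a l ih =>
    intro v v' h
    obtain ⟨v1, h1, h2⟩ := h
    have h3 := ih h2
    have e : FreeGroup.invRev (a :: l) = FreeGroup.invRev l ++ [iv a] := by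
      simp [FreeGroup.invRev, iv]
    rw [e]
    exact rd_append h3 ⟨v, hS _ _ _ h1, rfl⟩

theorem KE_run {V : Type} {k : ℕ} {R : V → Lt k → V → Prop} (W : ℤ → Lt k) (i : ℤ) (p : V) (m : ℕ) :
    ∀ {p' : V}, Rd R p ((List.range m).map fun t : ℕ => W (i + (t : ℤ))) p' →
      ∃ z : ℤ → V, z i = p ∧ z (i + m) = p' ∧ Run R W i (i + m) z := by
  induction m with
  | zero =>
    intro p' h
    have h1 : p = p' := h
    refine ⟨fun _ => p, rfl, h1, ?_⟩
    intro t h2 h3
    push_cast at h3
    omega
  | succ m ih =>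
    intro p' h
    rw [List.range_succ, List.map_append, rd_append_iff] at h
    obtain ⟨v', h1, h2⟩ := h
    obtain ⟨z, hz1, hz2, hz3⟩ := ih h1
    obtain ⟨v1, h3, h4⟩ := h2
    have h5 : v1 = p' := h4
    subst h5
    refine ⟨fun t => if t ≤ i + m then z t else v1, ?_, ?_, ?_⟩
    · show (if i ≤ i + (m : ℤ) then z i else v1) = p
      rw [if_pos (by omega), hz1]
    · show (if i + ((m + 1 : ℕ) : ℤ) ≤ i + (m : ℤ) then z _ else v1) = v1
      rw [if_neg (by push_cast; omega)]
    · intro t ht1 ht2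
      push_cast at ht2
      show R (if t ≤ i + (m : ℤ) then z t else v1) (W t) (if t + 1 ≤ i + (m : ℤ) then z (t + 1) else v1)
      rw [if_pos (by omega)]
      by_cases h6 : t + 1 ≤ i + (m : ℤ)
      · rw [if_pos h6]
        exact hz3 t ht1 (by omega)
      · rw [if_neg h6]
        have h7 : t = i + m := by omega
        rw [h7, hz2]
        exact h3

theorem KE_det {V : Type} {k : ℕ} {R : V → Lt k → V → Prop} (hD : Det R) {W : ℤ → Lt k} {s e : ℤ}
    {y z : ℤ → V} (hy : Run R W s e y) (hz : Run R W s e z) (h0 : y s = z s) (m : ℕ) :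
    s + m ≤ e → y (s + m) = z (s + m) := by
  induction m with
  | zero =>
    intro _
    rw [Nat.cast_zero, add_zero]
    exact h0
  | succ m ih =>
    intro h
    push_cast at h ⊢
    have h1 := ih (by omega)
    have h2 := hy (s + m) (by omega) (by omega)
    have h3 := hz (s + m) (by omega) (by omega)
    rw [h1] at h2
    rw [← add_assoc]
    exact hD _ _ _ _ h2 h3

theorem KE (hRR : RR_stmt) : KE_stmt := by
  intro k W N n κ hW hκ
  unfold Kn at hκ
  rw [Subgroup.normalClosure] at hκ
  induction hκ using Subgroup.closure_induction with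
  | one => exact ⟨[], rfl, fun V R _ z z' h => (show z = z' from h).symm⟩
  | mul x y _ _ hx hy =>
    obtain ⟨L1, h1, h1'⟩ := hx
    obtain ⟨L2, h2, h2'⟩ := hy
    refine ⟨L1 ++ L2, ?_, ?_⟩
    · rw [← FreeGroup.mul_mk, h1, h2]
    · intro V R hR z z' h
      rw [rd_append_iff] at h
      obtain ⟨v, h3, h4⟩ := h
      have h5 := h1' V R hR _ _ h3
      have h6 := h2' V R hR _ _ h4
      rw [h6, h5]
  | inv x _ hx =>
    obtain ⟨L1, h1, h1'⟩ := hx
    refine ⟨FreeGroup.invRev L1, ?_, ?_⟩
    · rw [← FreeGroup.inv_mk, h1]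
    · intro V R hR z z' h
      have h3 := KE_inv hR.sym _ h
      rw [FreeGroup.invRev_invRev] at h3
      exact (h1' V R hR _ _ h3).symm
  | mem x hx =>
    rw [Group.mem_conjugatesOfSet_iff] at hx
    obtain ⟨a, ha, hc⟩ := hx
    rw [Set.mem_singleton_iff] at ha
    obtain ⟨c, hc⟩ := isConj_iff.1 hc
    refine ⟨c.toWord ++ ((List.range (n * N)).map fun t : ℕ => W (0 + (t : ℤ))) ++
      FreeGroup.invRev c.toWord, ?_, ?_⟩
    · rw [← FreeGroup.mul_mk, ← FreeGroup.mul_mk, ← FreeGroup.inv_mk, FreeGroup.mk_toWord, ← hc, ha,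
        ← hW.wd_mul]
      rfl
    · intro V R hR z z' h
      rw [rd_append_iff] at h
      obtain ⟨p', h1, h3⟩ := h
      rw [rd_append_iff] at h1
      obtain ⟨p, h1, h2⟩ := h1
      have h4 : p' = p := by
        obtain ⟨y, hy1, hy2, hy3⟩ := KE_run W 0 p _ h2
        have h5 : Run R W 0 (0 + ((n : ℤ) - 3) * N) y := by
          intro t ht1 ht2
          refine hy3 t ht1 (lt_of_lt_of_le ht2 ?_)
          push_cast
          nlinarith [hW.pos]
        obtain ⟨y', hy1', hy2', hy3'⟩ := hR.cl 0 y h5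
        have hy4 : Run R W 0 (0 + (n : ℤ) * N) y := by
          intro t ht1 ht2
          refine hy3 t ht1 (lt_of_lt_of_le ht2 ?_)
          push_cast
          exact le_refl _
        have h6 := KE_det hR.det hy1' hy4 hy2' (n * N) (by push_cast; exact le_refl _)
        rw [hy2] at h6
        rw [← h6, ← hy1, ← hy3']
        push_cast
        rfl
      rw [h4] at h3
      have h5 := KE_inv hR.sym _ h1
      exact (rd_det hR.det h5 h3).symm

end Pool.Agent.WN
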